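import Mathlib
import Pool.Agent.Lib.MP_bfb583_al.TR.Low

/-!
Curves of low gonality over an algebraically closed subfield of a field all of whose cubic
extensions are cyclic.
-/

namespace Pool.Agent.Results.MP_bfb583_al.ConstantCurves

open Polynomial

universe u v

/-- Let `k` be an algebraically closed field of characteristic zero and `K` a field containing `k`,
`K ≠ k`, such that every finite Galois extension of `K` is cyclic, or, more generally, such that
every cubic extension of `K` is normal and the squares and the cubes have finite index in the
multiplicative group of `K`.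
Let `P(X, Y)` be a polynomial over `k` of `Y`-degree two; or three if `K` has a non-square; or
four if all finite Galois extensions of `K` have odd degree; or five, with nonzero discriminant,
if no finite Galois extension of `K` has degree divisible by five.
Then `P(x, y) = 0` for infinitely many `x, y` in `K` with `x` outside `k`. -/
theorem result :
    ∀ (k : Type v) (K : Type u) [Field k] [IsAlgClosed k] [CharZero k] [Field K] [Algebra k K],
      ¬ Function.Surjective (algebraMap k K) →
      ((∀ (L : Type u) [Field L] [Algebra K L] [FiniteDimensional K L] [IsGalois K L],
          IsCyclic (L ≃ₐ[K] L)) ∨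
        ((∀ (L : Type u) [Field L] [Algebra K L], Module.finrank K L = 3 → Normal K L) ∧
          (powMonoidHom 2 : Kˣ →* Kˣ).range.FiniteIndex ∧
          (powMonoidHom 3 : Kˣ →* Kˣ).range.FiniteIndex)) →
      ∀ P : k[X][X],
        (P.natDegree = 2 ∨ (P.natDegree = 3 ∧ ∃ d : K, ¬ IsSquare d) ∨
          (P.natDegree = 4 ∧
            ∀ (L : Type u) [Field L] [Algebra K L] [FiniteDimensional K L] [IsGalois K L],
              Odd (Module.finrank K L)) ∨
          (P.natDegree = 5 ∧ P.discr ≠ 0 ∧
            ∀ (L : Type u) [Field L] [Algebra K L] [FiniteDimensional K L] [IsGalois K L],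
              ¬ 5 ∣ Module.finrank K L)) →
        {p : K × K | p.1 ∉ Set.range (algebraMap k K) ∧
          (P.map (mapRingHom (algebraMap k K))).evalEval p.1 p.2 = 0}.Infinite := by
  intro k K _ _ _ _ _ hne hK P hP
  exact Pool.MP_bfb583_al.TR.low_degree k K hne hK P hP

end Pool.Agent.Results.MP_bfb583_al.ConstantCurves
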