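import Mathlib
import Pool.Agent.Lib.MP_bfb583_al.TR.FrobMain

/-!
Covers of the line with a cyclic resolvent of prime degree which is generated by any few roots
(for instance, covers whose Galois closure has a Frobenius group), over infinite fields whose
finite Galois groups have a normal Sylow subgroup.
-/

namespace Pool.Agent.Results.MP_bfb583_al.FrobeniusCovers

open Polynomial

universe u

/-- Let `ℓ` be a prime, `k` a natural number, and `K` an infinite field with an element that is
not an `ℓ`-th power.  Suppose that for every finite Galois extension of `K` the Sylow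
`ℓ`-subgroups of the Galois group are normal and the degree is divisible by no prime `p < k`,
`p ≠ ℓ` (if the absolute Galois group is pronilpotent, this holds with `k = 2`, and with `k = 3`
if `ℓ = 2`).
Let `P(X, Y)` be a polynomial over `K`, monic in `Y`, of `Y`-degree prime to `ℓ`, separable over
`K(X)`, and `M` its splitting field over `K(X)`.  Let `δ(X)` be a polynomial over `K` which is not
an `ℓ`-th power in `K[X]` but the `ℓ`-th power of an element `z` of `M`, and suppose that `z` lies
in the extension of `K(X)` generated by any `k` roots of `P` (for `k = 2` this holds if `M` is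
generated by any two roots, that is, if each automorphism of `M` over `K(X)` fixes at most one
root).  Suppose that the irreducible factors of `δ` of multiplicity not divisible by `ℓ` are
linear, with the possible exception of one of degree two if there is at least one linear one.
Then `P(x, y) = 0` for infinitely many `x, y` in `K` such that `δ(x)` is not an `ℓ`-th power
in `K`. -/
theorem result :
    ∀ (ℓ k : ℕ), ℓ.Prime → ∀ (K : Type u) [Field K] [Infinite K],
      (∃ d : K, ∀ c : K, c ^ ℓ ≠ d) →
      (∀ (L : Type u) [Field L] [Algebra K L] [FiniteDimensional K L] [IsGalois K L],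
        (∀ S : Sylow ℓ (L ≃ₐ[K] L), (S : Subgroup (L ≃ₐ[K] L)).Normal) ∧
          ∀ p : ℕ, p.Prime → p ∣ Module.finrank K L → p < k → p = ℓ) →
      ∀ P : K[X][X], P.Monic → ¬ ℓ ∣ P.natDegree →
        (P.map (algebraMap K[X] (RatFunc K))).Separable →
        ∀ z : (P.map (algebraMap K[X] (RatFunc K))).SplittingField,
          (∀ A : Finset (P.map (algebraMap K[X] (RatFunc K))).SplittingField, A.card = k →
            (∀ α ∈ A, aeval α (P.map (algebraMap K[X] (RatFunc K))) = 0) →
            z ∈ IntermediateField.adjoin (RatFunc K)
              (A : Set (P.map (algebraMap K[X] (RatFunc K))).SplittingField)) →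
          ∀ δ : K[X], z ^ ℓ = algebraMap K[X] _ δ → (∀ g : K[X], g ^ ℓ ≠ δ) →
            ∀ (r : K) (h q : K[X]) (m : ℕ) (E : Finset K) (a : K → ℕ),
              (q = 1 ∨ (Irreducible q ∧ q.natDegree = 2 ∧ ∃ e ∈ E, ¬ ℓ ∣ a e)) →
              δ = C r * h ^ ℓ * q ^ m * ∏ e ∈ E, (X - C e) ^ a e →
              {p : K × K | (∀ c : K, c ^ ℓ ≠ δ.eval p.1) ∧ P.evalEval p.1 p.2 = 0}.Infinite := by
  intro ℓ k hℓ K _ _ hK hF P hP hn hsep z h2 δ hz hd r h q m E a hq hδ
  exact Pool.MP_bfb583_al.TR.frobenius_points hℓ hK P hP hsep z h2 hn hF hz hd hq hδ

end Pool.Agent.Results.MP_bfb583_al.FrobeniusCovers
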