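import Pool.Agent.Lib.MP_bfb583_al.EC.Main

set_option autoImplicit false

/-!
Elliptic curves over fields of characteristic zero with prosolvable absolute Galois group have
infinitely many rational points.
-/

namespace Pool.Agent.Results.MP_bfb583_al.GenusOneProsolvable

/-- Let `K` be a field of characteristic zero all of whose finite Galois extensions have a
solvable group, or more generally such that no finite extension of `K` has a finite Galois
extension whose group maps onto the alternating group of five letters.  Then every elliptic curve
over `K` has infinitely many `K`-rational points. -/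
theorem result :
    ∀ (K : Type) [Field K] [CharZero K],
      ((∀ (L : Type) [Field L] [Algebra K L] [FiniteDimensional K L] [IsGalois K L],
          Group.IsSolvable (L ≃ₐ[K] L)) ∨
        (∀ (L : Type) [Field L] [Algebra K L] [FiniteDimensional K L]
          (M : Type) [Field M] [Algebra L M] [FiniteDimensional L M] [IsGalois L M],
          ¬ ∃ f : (M ≃ₐ[L] M) →* alternatingGroup (Fin 5), Function.Surjective f)) →
      ∀ (W : WeierstrassCurve K) [W.IsElliptic], Infinite W.toAffine.Point := by
  intro K _ _ h W _
  rcases h with h | h
  · exact Pool.MP_bfb583_al.EC.main K W (Pool.MP_bfb583_al.EC.stPS K h)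
  · exact Pool.MP_bfb583_al.EC.main K W (fun L _ _ _ M _ _ _ _ => h L M)

end Pool.Agent.Results.MP_bfb583_al.GenusOneProsolvable
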