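import Mathlib
import Pool.Agent.Lib.MP_bfb583_al.TR.Main

/-!
Curves with a map of degree three (or of suitable prime degree) to the line, over infinite fields
all of whose cubic extensions are cyclic.
-/

namespace Pool.Agent.Results.MP_bfb583_al.TrigonalCurves

open Polynomial

universe u

/-- Let `K` be an infinite field with a non-square, and `P(X, Y)` a polynomial over `K` whose
`Y`-degree `n` is an odd prime.  Suppose that every extension of `K` of degree `n` is normal and
that no odd prime below `n` divides the degree of a finite Galois extension of `K` (for `n = 3`
only the first condition is left; both hold if the absolute Galois group of `K` is pronilpotent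
and `n` is the smallest odd prime dividing its order).
Suppose that the discriminant `D(X)` of `P` with respect to `Y` is not a square in `K[X]`, and
that its irreducible factors of odd multiplicity are linear except for at most one of degree two,
which is allowed if there is at least one linear factor of odd multiplicity.
Then `P(x, y) = 0` for infinitely many `x, y` in `K` such that `D(x)` is a non-square in `K`. -/
theorem result :
    ∀ (K : Type u) [Field K] [Infinite K], (∃ d : K, ¬ IsSquare d) →
      ∀ P : K[X][X], P.natDegree.Prime → P.natDegree ≠ 2 →
        (∀ (L : Type u) [Field L] [Algebra K L],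
          Module.finrank K L = P.natDegree → Normal K L) →
        (∀ (L : Type u) [Field L] [Algebra K L] [FiniteDimensional K L] [IsGalois K L],
          ∀ p : ℕ, p.Prime → p ∣ Module.finrank K L → p < P.natDegree → p = 2) →
        ¬ IsSquare P.discr →
        ∀ (r : K) (h q : K[X]) (E : Finset K),
          (q = 1 ∨ (Irreducible q ∧ q.natDegree = 2 ∧ E.Nonempty)) →
          P.discr = C r * h ^ 2 * q * ∏ e ∈ E, (X - C e) →
          {p : K × K | ¬ IsSquare (P.discr.eval p.1) ∧ P.evalEval p.1 p.2 = 0}.Infinite := by
  intro K _ _ hK P hp hp2 hA hS hd r h q E hq hD
  exact Pool.MP_bfb583_al.TR.covers hK P hp hp2 hA hS hd hq hD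

end Pool.Agent.Results.MP_bfb583_al.TrigonalCurves
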